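import Pool.Agent.Q5.MS.Window3
import Pool.Agent.Results.MP_dfae13_nt.MeanSquareLeadingAbelian
import Pool.Agent.Results.MP_148101_nt.SharpWindows

/-!
# The order of the `L`-function of an abelian variety from the windows of the product over the primes

Let `A` be an abelian variety of dimension `g` over a number field `K`, embedded in a projective space and given
there by homogeneous polynomials with coefficients in `𝓞 K`, and let `S` be a finite set of primes such that for
`v ∉ S` there are Weil numbers `α_{v,1}, …, α_{v,2g}` of absolute value `√q_v` with `#A(κ) = ∏_j (1 - α_{v,j}^e)` for the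
extensions `κ` of degree `e` of the residue field `k_v` (by the theorem of Weil this is so if `S` contains the primes
of bad reduction and the bad primes of the equations). Let `L(A, s) = ∏_{v ∉ S} ∏_j (1 - α_{v,j} q_v^{-s})⁻¹`,
`Re s > 3/2`, and for `0 < l < 1`

`W_l(y) = ∏_{v ∉ S, y^l < q_v ≤ y} #A(k_v)/q_v^g`

the part in the window `(y^l, y]` of the product of the local densities of Birch and Swinnerton-Dyer (a finite
product of numbers of points). Let `M_l(Y) = (log Y)⁻¹ ∫_e^Y |log W_l(y) - ρ log (1/l)| dy/y`, `ρ` real.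

1. Nothing is assumed on `L(A, s)`. If there is an `M` with `M_l(Y) ≤ M` for every `l` and all `Y ≥ Y_0(l)`, then
   `L(A, s)` has an analytic continuation without zeros to the half plane `Re s > 1` to the right of the centre, and
   `log |L(A, 1 + x)| / log x → ρ` for `x → 0+`: the order of vanishing at `s = 1` is `ρ`.
2. Let `F` be a continuation of `L(A, s)` to a half plane `Re s > 1 - η`, analytic except perhaps for a pole at
   `s = 1`, of polynomial growth. Then `ord_{s=1} F = ρ` and `F` has no zeros with `Re s > 1`, IF AND ONLY IF there is an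
   `M` with `M_l(Y) ≤ M` for every `l` and all `Y ≥ Y_0(l)`. Moreover the following are equivalent: `F` has no zeros
   with `Re s > 1`; for ONE `l` the means `(log Y)⁻¹ ∫_e^Y |log W_l(y)| dy/y` are bounded; for ALL `l` they are bounded.
3. If moreover `∑_{√y < q_v ≤ y} (∑_j α_{v,j}²)/(2 q_v²)` has a limit, then one exponent decides: `ord_{s=1} F = ρ` and
   `F` has no zeros with `Re s > 1` if and only if `M_l(Y) → 0`, for any fixed `l`.

With `ρ = rank A(K)`: the equality of Birch, Swinnerton-Dyer and Tate together with the Riemann hypothesis for `A` says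
exactly that `log W_l(y) = rank A(K) log (1/l) + O(1)` in logarithmic mean, uniformly in `l`.

For elliptic curves: `WindowLaw` of problem `MP_f50388_nt` and `ContinuationFromOneWindow` of problem `MP_7ed9c3_nt`.
The library is `Pool.Agent.Q5.MS.Window3`, `Pool.Agent.Q5.VA`, based on `Pool.Agent.TH270.MS` (helper270).
-/

set_option autoImplicit false

namespace Pool.Agent.Results.MP_1d384c_nt.WindowLawAbelian

open Filter Topology Set Complex NumberField IsDedekindDomain MeasureTheory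
open Pool.Agent.Results.MP_dfae13_nt.MeanSquareLeadingAbelian (norm IsWeil points Tempered squares)

variable {K : Type} [Field K] [NumberField K] {n : ℕ}

/-- The primes `v` outside of `S` with `y^l < q_v ≤ y`. -/
def between (S : Finset (HeightOneSpectrum (𝓞 K))) (l y : ℝ) : Set (HeightOneSpectrum (𝓞 K)) :=
  {v | v ∉ S ∧ y ^ l < norm v ∧ (norm v : ℝ) ≤ y}

/-- `W_l(y) = ∏_{v ∉ S, y^l < q_v ≤ y} #A(k_v)/q_v^g`, a finite product. -/
noncomputable def window (X : Set (MvPolynomial (Fin n) (𝓞 K))) (g : ℕ)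
    (S : Finset (HeightOneSpectrum (𝓞 K))) (l y : ℝ) : ℝ :=
  ∏ᶠ v ∈ between S l y, points X v / (norm v : ℝ) ^ g

/-- `(log Y)⁻¹ ∫_e^Y |φ(y)| dy/y`. -/
noncomputable def logMean (φ : ℝ → ℝ) (Y : ℝ) : ℝ := (∫ y in Real.exp 1..Y, |φ y| / y) / Real.log Y

/-- `log W_l(y) = ρ log (1/l) + O(1)` in logarithmic mean, uniformly in `l`. -/
def UniformLaw (X : Set (MvPolynomial (Fin n) (𝓞 K))) (g : ℕ)
    (S : Finset (HeightOneSpectrum (𝓞 K))) (ρ : ℝ) : Prop :=
  ∃ M : ℝ, ∀ l : ℝ, 0 < l → l < 1 → ∀ᶠ Y : ℝ in atTop,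
    logMean (fun y => Real.log (window X g S l y) - ρ * Real.log (1 / l)) Y ≤ M

/-- `F` has no zeros with `Re s > 1`. -/
def NoZeros (F : ℂ → ℂ) : Prop := ∀ s : ℂ, 1 < s.re → F s ≠ 0

/-- `ord_{s=1} F = ρ`, and `F` has no zeros with `Re s > 1`. -/
def OrderRH (F : ℂ → ℂ) (ρ : ℝ) : Prop :=
  (∃ m : ℤ, ρ = m ∧ meromorphicOrderAt F 1 = m) ∧ NoZeros F

/-- `F` is an analytic continuation without zeros of the `L`-function `∏_{v ∉ S} ∏_j (1 - α_{v,j} q_v^{-s})⁻¹`
(`Re s > 3/2`) to the half plane `Re s > 1`. -/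
def Continues {g : ℕ} (S : Finset (HeightOneSpectrum (𝓞 K)))
    (α : HeightOneSpectrum (𝓞 K) → Fin (2 * g) → ℂ) (F : ℂ → ℂ) : Prop :=
  (∀ s : ℂ, 1 < s.re → DifferentiableAt ℂ F s ∧ F s ≠ 0) ∧
  ∀ s : ℂ, (3 : ℝ) / 2 < s.re →
    HasProd (fun v : {v : HeightOneSpectrum (𝓞 K) // v ∉ S} =>
      (∏ j, (1 - α v.1 j * (norm v.1 : ℂ) ^ (-s)))⁻¹) (F s)

/-! ### translation -/

open Pool.Agent.Results.MP_dfae13_nt.MeanSquareLeadingAbelian (weil frob cv_eq points_pos one_eq
  squares_eq tempered)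
open Pool.Agent.TH942.ES (Sys cv LE zv xv)
open Pool.Agent.TH270.MS (Mc)
open Pool.Agent.Q5.VA (NS aD Frob)
open Pool.Agent.Q5.MS (Pv Sq WV window_bdd window_order window_pv cont_unif)
open Pool.Agent.Results.MP_148101_nt.SharpWindows (pv_window)

variable {X : Set (MvPolynomial (Fin n) (𝓞 K))} {g : ℕ}
  {S : Finset (HeightOneSpectrum (𝓞 K))} {α : HeightOneSpectrum (𝓞 K) → Fin (2 * g) → ℂ} {F : ℂ → ℂ}

theorem log_window (hg : 1 ≤ g) (h : IsWeil X g S α) (l y : ℝ) :
    Real.log (window X g S l y) =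
      ∑ᶠ (v : {v : HeightOneSpectrum (𝓞 K) // v ∉ S}) (_ : y ^ l < NS S v ∧ (NS S v : ℝ) ≤ y),
        cv (NS S) (aD 1 S α) v := by
  classical
  have E := (frob h).sys (by omega)
  have hfin : (between S l y).Finite := by
    have h1 := (E.fin_le y).image Subtype.val
    refine h1.subset fun v hv => ?_
    exact ⟨⟨v, hv.1⟩, hv.2.2, rfl⟩
  have hfin2 : {v : {v : HeightOneSpectrum (𝓞 K) // v ∉ S} | y ^ l < NS S v ∧
      (NS S v : ℝ) ≤ y}.Finite := (E.fin_le y).subset fun v hv => hv.2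
  have h2 : window X g S l y = ∏ v ∈ hfin.toFinset, points X v / (norm v : ℝ) ^ g :=
    finprod_mem_eq_finite_toFinset_prod _ hfin
  have h4 : (∑ᶠ (v : {v : HeightOneSpectrum (𝓞 K) // v ∉ S})
      (_ : y ^ l < NS S v ∧ (NS S v : ℝ) ≤ y), cv (NS S) (aD 1 S α) v) =
      ∑ v ∈ hfin2.toFinset, cv (NS S) (aD 1 S α) v :=
    finsum_mem_eq_finite_toFinset_sum (fun v => cv (NS S) (aD 1 S α) v) hfin2
  rw [h2, Real.log_prod, h4]
  · refine Finset.sum_bij' (i := fun v hv => ⟨v, ((Set.Finite.mem_toFinset _).1 hv).1⟩)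
      (j := fun v _ => v.1) ?_ ?_ ?_ ?_ ?_
    · intro v hv
      rw [Set.Finite.mem_toFinset] at hv ⊢
      exact hv.2
    · intro v hv
      rw [Set.Finite.mem_toFinset] at hv ⊢
      exact ⟨v.2, hv⟩
    · intro v hv
      rfl
    · intro v hv
      rfl
    · intro v hv
      exact (cv_eq h ⟨v, ((Set.Finite.mem_toFinset _).1 hv).1⟩).symm
  · intro v hv
    rw [Set.Finite.mem_toFinset] at hv
    exact (points_pos h hv.1).ne'

theorem wv_eq (hg : 1 ≤ g) (h : IsWeil X g S α) (ρ : ℝ) {l y : ℝ} (hl1 : l < 1)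
    (hy : Real.exp 1 ≤ y) : WV (NS S) (aD 1 S α) ρ l y =
      Real.log (window X g S l y) - ρ * Real.log (1 / l) := by
  have hy1 : (1 : ℝ) ≤ y := by linarith [Real.add_one_le_exp 1]
  have E := (frob h).sys (by omega)
  unfold WV
  rw [pv_window E hl1 hy1, log_window hg h, one_div, Real.log_inv]
  ring

theorem mean_int (hg : 1 ≤ g) (h : IsWeil X g S α) (ρ : ℝ) {l : ℝ} (hl1 : l < 1) {Y : ℝ}
    (hY : Real.exp 1 ≤ Y) :
    ∫ y in Real.exp 1..Y, |WV (NS S) (aD 1 S α) ρ l y| / y =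
      ∫ y in Real.exp 1..Y, |Real.log (window X g S l y) - ρ * Real.log (1 / l)| / y := by
  refine intervalIntegral.integral_congr fun y hy => ?_
  rw [uIcc_of_le hY] at hy
  show |WV (NS S) (aD 1 S α) ρ l y| / y =
    |Real.log (window X g S l y) - ρ * Real.log (1 / l)| / y
  rw [wv_eq hg h ρ hl1 hy.1]

theorem le_iff (hg : 1 ≤ g) (h : IsWeil X g S α) (ρ B : ℝ) {l : ℝ} (hl1 : l < 1) :
    (∀ᶠ Y : ℝ in atTop, ∫ y in Real.exp 1..Y, |WV (NS S) (aD 1 S α) ρ l y| / y ≤
      B * Real.log Y) ↔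
    ∀ᶠ Y : ℝ in atTop,
      logMean (fun y => Real.log (window X g S l y) - ρ * Real.log (1 / l)) Y ≤ B := by
  refine eventually_congr ?_
  filter_upwards [eventually_ge_atTop (Real.exp 1)] with Y hY
  have hlog : 0 < Real.log Y := by
    have := Pool.Agent.TH270.MS.one_le_log hY
    linarith
  unfold logMean
  rw [div_le_iff₀ hlog, mean_int hg h ρ hl1 hY]

/-- **The order of the `L`-function of an abelian variety from the windows.** -/
theorem result (K : Type) [Field K] [NumberField K] (n g : ℕ) (hg : 1 ≤ g)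
    (X : Set (MvPolynomial (Fin n) (𝓞 K))) (S : Finset (HeightOneSpectrum (𝓞 K)))
    (α : HeightOneSpectrum (𝓞 K) → Fin (2 * g) → ℂ) (hX : IsWeil X g S α) :
    (∀ ρ : ℝ, UniformLaw X g S ρ → ∃ F : ℂ → ℂ, Continues S α F ∧
      Tendsto (fun x : ℝ => Real.log ‖F (1 + x)‖ / Real.log x) (𝓝[>] 0) (𝓝 ρ)) ∧
    ∀ F : ℂ → ℂ, Tempered S α F →
      (∀ ρ : ℝ, OrderRH F ρ ↔ UniformLaw X g S ρ) ∧
      List.TFAE [
        NoZeros F,
        ∃ l : ℝ, 0 < l ∧ l < 1 ∧ ∃ B : ℝ, ∀ᶠ Y : ℝ in atTop,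
          logMean (fun y => Real.log (window X g S l y)) Y ≤ B,
        ∀ l : ℝ, 0 < l → l < 1 → ∃ B : ℝ, ∀ᶠ Y : ℝ in atTop,
          logMean (fun y => Real.log (window X g S l y)) Y ≤ B] ∧
      (∀ c : ℝ, Tendsto (squares S α) atTop (𝓝 c) → ∀ ρ l : ℝ, 0 < l → l < 1 →
        (OrderRH F ρ ↔
          Tendsto (logMean fun y => Real.log (window X g S l y) - ρ * Real.log (1 / l)) atTop
            (𝓝 0))) := by
  have E := (frob hX).sys (by omega)
  refine ⟨fun ρ h => ?_, fun F hF => ?_⟩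
  · obtain ⟨M, hM⟩ := h
    obtain ⟨G, h2, h3, h4⟩ := cont_unif E ((frob hX).real (by omega)) (ρ := ρ) (M := M)
      (fun l hl hl1 => (le_iff hg hX ρ M hl1).2 (hM l hl hl1))
    refine ⟨fun s => G (s - 1), ⟨fun s hs => ?_, fun s hs => ?_⟩, h4.congr fun x => ?_⟩
    · obtain ⟨h5, h6⟩ := h2 (s - 1) (by rw [Complex.sub_re, Complex.one_re]; linarith)
      exact ⟨DifferentiableAt.comp s (f := fun s : ℂ => s - 1) h5 (by fun_prop), h6⟩
    · have hs' : 1 / 2 < (s - 1).re := by rw [Complex.sub_re, Complex.one_re]; linarith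
      have h5 := E.hasProd (s := s - 1) hs'
      have h6 : (fun v : {v : HeightOneSpectrum (𝓞 K) // v ∉ S} =>
          (∏ j, (1 - α v.1 j * (norm v.1 : ℂ) ^ (-s)))⁻¹) =
          fun v => ∏ i, (1 - zv (NS S) (aD 1 S α) v i * xv (NS S) v (s - 1))⁻¹ := by
        funext v
        have h7 := Q5.VA.factorD (i := 1) (S := S) (α := α) v s
        rw [one_eq, Complex.ofReal_one] at h7
        exact h7.symm
      rw [h6]
      simp only
      rw [h3 _ hs', E.LE_eq hs']
      exact h5
    · simp only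
      rw [add_sub_cancel_left]
  · obtain ⟨G₀, k, κ, η, C, H⟩ := Q5.VA.temp_data E ((frob hX).real (by omega)) (tempered hF)
    simp only [Complex.ofReal_one] at H
    have hz := Q5.VA.zeros_shiftC F 1
    rw [Complex.ofReal_one] at hz
    have hms : meromorphicOrderAt (fun s => F (1 + s)) 0 = meromorphicOrderAt F 1 := by
      have h1 : AnalyticAt ℂ (fun s : ℂ => 1 + s) 0 := by fun_prop
      have h2 : deriv (fun s : ℂ => 1 + s) 0 ≠ 0 := by simp
      have h3 := meromorphicOrderAt_comp_of_deriv_ne_zero (f := F) h1 h2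
      simp only [add_zero] at h3
      exact h3
    have h0 : ∀ ρ : ℝ, OrderRH F ρ ↔ ((∀ s : ℂ, 0 < s.re → F (1 + s) ≠ 0) ∧
        ∃ m : ℤ, ρ = m ∧ meromorphicOrderAt (fun s => F (1 + s)) 0 = m) := by
      intro ρ
      rw [hms, hz]
      exact and_comm
    refine ⟨fun ρ => ?_, ?_, fun c hc ρ l hl hl1 => ?_⟩
    · rw [h0, window_order H ρ]
      exact exists_congr fun M => forall_congr' fun l => forall_congr' fun _ =>
        forall_congr' fun hl1 => le_iff hg hX ρ M hl1
    · have t := window_bdd H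
      rw [hz] at t
      have e1 : ∀ l B : ℝ, l < 1 → ((∀ᶠ Y : ℝ in atTop,
          ∫ y in Real.exp 1..Y, |WV (NS S) (aD 1 S α) 0 l y| / y ≤ B * Real.log Y) ↔
          ∀ᶠ Y : ℝ in atTop, logMean (fun y => Real.log (window X g S l y)) Y ≤ B) := by
        intro l B hl1
        have h := le_iff hg hX 0 B hl1
        simp only [zero_mul, sub_zero] at h
        exact h
      have t1 : NoZeros F ↔ ∃ l : ℝ, 0 < l ∧ l < 1 ∧ ∃ B : ℝ, ∀ᶠ Y : ℝ in atTop,
          ∫ y in Real.exp 1..Y, |WV (NS S) (aD 1 S α) 0 l y| / y ≤ B * Real.log Y := t.out 0 3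
      have t2 : NoZeros F ↔ ∀ l : ℝ, 0 < l → l < 1 → ∃ B : ℝ, ∀ᶠ Y : ℝ in atTop,
          ∫ y in Real.exp 1..Y, |WV (NS S) (aD 1 S α) 0 l y| / y ≤ B * Real.log Y := t.out 0 4
      tfae_have 1 ↔ 2 := by
        rw [t1]
        exact exists_congr fun l => and_congr_right fun _ => and_congr_right fun hl1 =>
          exists_congr fun B => e1 l B hl1
      tfae_have 1 ↔ 3 := by
        rw [t2]
        exact forall_congr' fun l => forall_congr' fun _ => forall_congr' fun hl1 =>
          exists_congr fun B => e1 l B hl1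
      tfae_finish
    · have hc' : Tendsto (Sq (NS S) (aD 1 S α)) atTop (𝓝 c) := by
        rw [← squares_eq]
        exact hc
      rw [h0, ← window_pv H ρ hc' hl hl1]
      refine tendsto_congr' ?_
      filter_upwards [eventually_ge_atTop (Real.exp 1)] with Y hY
      unfold logMean
      rw [mean_int hg hX ρ hl1 hY]

end Pool.Agent.Results.MP_1d384c_nt.WindowLawAbelian
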