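import Pool.Agent.Q5.AP.Win
import Pool.Agent.Results.MP_1d384c_nt.WindowLawAbelian

/-!
# The rank conjecture for abelian varieties and the exact mean square of ONE window of the point counts

Let `A` be an abelian variety of dimension `g` over a number field `K`, embedded in a projective space and given
there by homogeneous polynomials with coefficients in `𝓞 K`, `S` a finite set of primes, and for `v ∉ S` let
`α_{v,1}, …, α_{v,2g}` be the Weil numbers with `#A(κ) = ∏_j (1 - α_{v,j}^e)` for the extensions `κ` of degree `e` of the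
residue field `k_v`. Let `F` be a continuation of `L(A, s) = ∏_{v ∉ S} ∏_j (1 - α_{v,j} q_v^{-s})⁻¹` to a half plane
`Re s > 1 - η`, analytic except perhaps for a pole at `s = 1`, of polynomial growth, and let `m_t` be the order of
vanishing of `F` at `1 + it`. Fix ONE exponent `0 < l < 1` and let

`W_l(y) = ∏_{v ∉ S, y^l < q_v ≤ y} #A(k_v)/q_v^g`,  `W*_l(y) = P*(y)/P*(y^l)`,
`P*(y) = exp (- ∑_{q_v^k ≤ y} (∑_j α_{v,j}^k)/(k q_v^k))`

be the product of the local densities in the window `(y^l, y]`, over the primes and over the prime powers. For every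
real `ρ` the following are equivalent:

* `ord_{s=1} F = ρ`, and `F` has no zeros with `Re s > 1`;
* `(log Y)⁻¹ ∫_e^Y (log y · (log W*_l(y) - ρ log (1/l)))² dy/y` is bounded for large `Y`;
* the sum `V_l = ∑_{t ≠ 0} (m_t - m_{t/l})²/t²` converges and these means tend to `V_l`.

In this case for every real `t ≠ 0` the means `(log Y)⁻¹ ∫_e^Y log y · (log W*_l(y) - ρ log (1/l)) y^(-it) dy/y` tend to
`-i (m_t - m_{t/l})/t` (and to `0` for `t = 0`), and `m_t = ∑_{j < n} (m_{t l^j} - m_{t l^{j+1}})` for all large `n`: the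
numbers of points over the residue fields in one system of windows determine the zeros of `L(A, s)` on the line
`Re s = 1` with their multiplicities. Moreover `V_l = 0` only if `F` has no zeros `1 + it`, `t ≠ 0`.

The same holds for `W_l` if `log y · (q(y) - q(y^l)) → 0` with `q(y) = ∑_{√y < q_v ≤ y} (∑_j α_{v,j}²)/(2 q_v²)`.

With `ρ = rank A(K)`: the equality of Birch, Swinnerton-Dyer and Tate and the Riemann hypothesis for `A` hold together
if and only if for one `l` the formula `W*_l(y) ≈ (1/l)^{rank A(K)}` has an error `O(1/log y)` in square mean, and then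
the mean square of the error is known exactly. The leading coefficient of `F` does not enter. For elliptic curves:
`ExactWindows` of problem `MP_cd906c_nt`; the logarithmic mean (error `o(1)`): `WindowLawAbelian` of this problem.
-/

set_option autoImplicit false

namespace Pool.Agent.Results.MP_1d384c_nt.ExactWindowsAbelian

open Filter Topology Set Complex NumberField IsDedekindDomain MeasureTheory
open Pool.Agent.Results.MP_dfae13_nt.MeanSquareLeadingAbelian (norm IsWeil points Tempered squares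
  productStar)
open Pool.Agent.Results.MP_1d384c_nt.WindowLawAbelian (between window NoZeros OrderRH)

variable {K : Type} [Field K] [NumberField K] {n g : ℕ}

/-- `W*_l(y) = P*(y)/P*(y^l)`. -/
noncomputable def windowStar (S : Finset (HeightOneSpectrum (𝓞 K)))
    (α : HeightOneSpectrum (𝓞 K) → Fin (2 * g) → ℂ) (l y : ℝ) : ℝ :=
  productStar S α y / productStar S α (y ^ l)

/-- `log W*_l(y) - ρ log (1/l)` -/
noncomputable def errStar (S : Finset (HeightOneSpectrum (𝓞 K)))
    (α : HeightOneSpectrum (𝓞 K) → Fin (2 * g) → ℂ) (ρ l y : ℝ) : ℝ :=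
  Real.log (windowStar S α l y) - ρ * Real.log (1 / l)

/-- `log W_l(y) - ρ log (1/l)` -/
noncomputable def err (X : Set (MvPolynomial (Fin n) (𝓞 K))) (g : ℕ)
    (S : Finset (HeightOneSpectrum (𝓞 K))) (ρ l y : ℝ) : ℝ :=
  Real.log (window X g S l y) - ρ * Real.log (1 / l)

/-- The order of vanishing of `F` at `1 + it`. -/
noncomputable def mult (F : ℂ → ℂ) (t : ℝ) : ℕ := (analyticOrderAt F (1 + t * I)).toNat

/-- `(log Y)⁻¹ ∫_e^Y (log y · δ(y))² dy/y`. -/
noncomputable def meanSquare (δ : ℝ → ℝ) (Y : ℝ) : ℝ :=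
  (∫ y in Real.exp 1..Y, (Real.log y * δ y) ^ 2 / y) / Real.log Y

/-- `(log Y)⁻¹ ∫_e^Y (log y · δ(y)) y^(-it) dy/y`. -/
noncomputable def coefficient (δ : ℝ → ℝ) (t Y : ℝ) : ℂ :=
  (∫ y in Real.exp 1..Y, ((Real.log y * δ y : ℝ) : ℂ) * (y : ℂ) ^ (-(t * I)) / (y : ℂ)) /
    (Real.log Y : ℂ)

/-- `∫_e^Y (log y · δ(y))² dy/y ≤ B log Y` for some `B` and all large `Y`. -/
def BoundedMeanSquare (δ : ℝ → ℝ) : Prop := ∃ B : ℝ, ∀ᶠ Y : ℝ in atTop,
  ∫ y in Real.exp 1..Y, (Real.log y * δ y) ^ 2 / y ≤ B * Real.log Y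

/-- `V_l = ∑_{t ≠ 0} (m_t - m_{t/l})²/t²` converges (the term with `t = 0` is `0`), it is the limit of the mean
squares, and it is `0` only if `F` has no zeros `1 + it`, `t ≠ 0`. -/
def WindowSquareLaw (F : ℂ → ℂ) (l : ℝ) (δ : ℝ → ℝ) : Prop :=
  ∃ V : ℝ, HasSum (fun t : ℝ => (((mult F t : ℝ) - mult F (t / l)) / t) ^ 2) V ∧
    Tendsto (meanSquare δ) atTop (𝓝 V) ∧ (V = 0 ↔ ∀ t : ℝ, t ≠ 0 → mult F t = 0)

/-- For every real `t` the means of `log y · δ(y) y^(-it)` tend to `-i (m_t - m_{t/l})/t` (`0` for `t = 0`), and these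
numbers determine the multiplicities `m_t`, `t ≠ 0`. -/
def ReadsZeros (F : ℂ → ℂ) (l : ℝ) (δ : ℝ → ℝ) : Prop :=
  (∀ t : ℝ, Tendsto (coefficient δ t) atTop
    (𝓝 (-((((mult F t : ℂ) - mult F (t / l)) * I) / t)))) ∧
  ∀ t : ℝ, t ≠ 0 → ∀ᶠ n : ℕ in atTop,
    (mult F t : ℝ) = ∑ j ∈ Finset.range n, ((mult F (t * l ^ j) : ℝ) - mult F (t * l ^ (j + 1)))

/-- The criterion for one window, with the exact mean square and the zeros. -/
def Criterion (F : ℂ → ℂ) (ρ l : ℝ) (δ : ℝ → ℝ) : Prop :=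
  List.TFAE [OrderRH F ρ, BoundedMeanSquare δ, WindowSquareLaw F l δ] ∧ (OrderRH F ρ → ReadsZeros F l δ)

/-! ### translation -/

open Pool.Agent.Results.MP_dfae13_nt.MeanSquareLeadingAbelian (frob tempered squares_eq log_star star_pos)
open Pool.Agent.Results.MP_1d384c_nt.WindowLawAbelian (wv_eq)
open Pool.Agent.Q5.VA (NS aD)
open Pool.Agent.TH270.MS (Mc)
open Pool.Agent.Q5.MS (WL WV Sq)
open Pool.Agent.Q5.AP (WinLaw win_pack win_packP mc_iso telescope win_pos)

theorem wl_eq' (S : Finset (HeightOneSpectrum (𝓞 K)))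
    (α : HeightOneSpectrum (𝓞 K) → Fin (2 * g) → ℂ) (ρ : ℝ) {l : ℝ} (y : ℝ) :
    errStar S α ρ l y = -WL (NS S) (aD 1 S α) ρ l y := by
  unfold errStar windowStar WL
  rw [Real.log_div (star_pos y).ne' (star_pos (y ^ l)).ne', log_star, log_star, one_div,
    Real.log_inv]
  ring

/-- from the general statement -/
theorem criterion_of {F : ℂ → ℂ} {ρ l : ℝ} {δ : ℝ → ℝ} (hl : 0 < l) (hl1 : l < 1)
    (hiso : ∃ r : ℝ, 0 < r ∧ ∀ t : ℝ, t ≠ 0 → |t| < r → mult F t = 0)
    (h : WinLaw (OrderRH F ρ) (mult F) l δ) : Criterion F ρ l δ := by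
  obtain ⟨r, hr, hiso⟩ := hiso
  obtain ⟨t, rd⟩ := h
  refine ⟨?_, fun hp => ⟨rd hp, fun t' ht' => telescope hl hl1 hr hiso ht'⟩⟩
  tfae_have 1 ↔ 2 := t.out 0 1
  tfae_have 1 ↔ 3 := by
    refine (t.out 0 2).trans (exists_congr fun V => ?_)
    constructor
    · rintro ⟨h1, h2⟩
      exact ⟨h1, h2, (win_pos hl hl1 hr hiso h1).2⟩
    · rintro ⟨h1, h2, -⟩
      exact ⟨h1, h2⟩
  tfae_finish

/-- **The rank conjecture for abelian varieties and the exact mean square of one window.** -/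
theorem result (K : Type) [Field K] [NumberField K] (n g : ℕ) (hg : 1 ≤ g)
    (X : Set (MvPolynomial (Fin n) (𝓞 K))) (S : Finset (HeightOneSpectrum (𝓞 K)))
    (α : HeightOneSpectrum (𝓞 K) → Fin (2 * g) → ℂ) (hX : IsWeil X g S α)
    (F : ℂ → ℂ) (hF : Tempered S α F) (l : ℝ) (hl : 0 < l) (hl1 : l < 1) :
    (∀ ρ : ℝ, Criterion F ρ l (errStar S α ρ l)) ∧
    (Tendsto (fun y : ℝ => Real.log y * (squares S α y - squares S α (y ^ l))) atTop (𝓝 0) →
      ∀ ρ : ℝ, Criterion F ρ l (err X g S ρ l)) := by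
  have E := (frob hX).sys (by omega)
  obtain ⟨G₀, k, κ, η, C, H⟩ := Q5.VA.temp_data E ((frob hX).real (by omega)) (tempered hF)
  simp only [Complex.ofReal_one] at H
  have hz := Q5.VA.zeros_shiftC F 1
  rw [Complex.ofReal_one] at hz
  have hms : meromorphicOrderAt (fun s => F (1 + s)) 0 = meromorphicOrderAt F 1 := by
    have h1 : AnalyticAt ℂ (fun s : ℂ => 1 + s) 0 := by fun_prop
    have h2 : deriv (fun s : ℂ => 1 + s) 0 ≠ 0 := by simp
    have h3 := meromorphicOrderAt_comp_of_deriv_ne_zero (f := F) h1 h2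
    simp only [add_zero] at h3
    exact h3
  have h0 : ∀ ρ : ℝ, OrderRH F ρ ↔ ((∀ s : ℂ, 0 < s.re → F (1 + s) ≠ 0) ∧
      ∃ m : ℤ, ρ = m ∧ meromorphicOrderAt (fun s => F (1 + s)) 0 = m) := by
    intro ρ
    rw [hms, hz]
    exact and_comm
  have hm : ∀ t : ℝ, Pool.Agent.Q5.BP.mu (fun s => F (1 + s)) t = mult F t :=
    Pool.Agent.Q5.BP.mu_shift F 1
  have hiso : ∃ r : ℝ, 0 < r ∧ ∀ t : ℝ, t ≠ 0 → |t| < r → mult F t = 0 := by
    obtain ⟨r, hr, h⟩ := mc_iso H
    exact ⟨r, hr, fun t ht htr => by rw [← hm t]; exact h t ht htr⟩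
  refine ⟨fun ρ => criterion_of hl hl1 hiso (win_pack H ρ hl hl1 (h0 ρ) hm fun y _ => wl_eq' S α ρ y),
    fun hS ρ => ?_⟩
  refine criterion_of hl hl1 hiso (win_packP H ρ hl hl1 (h0 ρ) hm ?_ fun y hy => ?_)
  · rw [← squares_eq]
    exact hS
  · exact (wv_eq hg hX ρ hl1 hy).symm

end Pool.Agent.Results.MP_1d384c_nt.ExactWindowsAbelian
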