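import Pool.Agent.Q5.VA.Abel

/-!
# The product of Birch and Swinnerton-Dyer for abelian varieties over number fields, smoothed

Let `A` be an abelian variety of dimension `g` over a number field `K`, embedded in a projective space and given
there by homogeneous polynomials with coefficients in `𝓞 K`, and let `S` be a finite set of primes such that for
`v ∉ S` there are Weil numbers `α_{v,1}, …, α_{v,2g}` of absolute value `√q_v` with
`#A(κ) = ∏_j (1 - α_{v,j}^e)` for the extensions `κ` of degree `e` of the residue field `k_v` (by the theorem of Weil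
this is so if `S` contains the primes of bad reduction and the bad primes of the equations). Let `F` be a
continuation of the `L`-series `∏_{v ∉ S} ∏_j (1 - α_{v,j} q_v^{-s})⁻¹` to the half plane `Re s > 1`, analytic there
and at `s = 1`, with `|F(s)| ≤ C (1 + |s|)^κ (1 + 1/(Re s - 1))^κ` for `Re s > 1` (nothing is assumed on `F` to the
left of the line `Re s = 1`, except near the point `1`). For `k > 0` let

`S_k(Y) = ∑_{v ∉ S, q_v ≤ Y} (1 - log q_v / log Y)^k log (#A(k_v)/q_v^g)`,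

the logarithm of the product `∏ #A(k_v)/q_v^g` of Birch and Swinnerton-Dyer with the Riesz smoothing of order `k`;
for `k → 0` it is the sharp cut-off. Then for every real `ρ`:

* `ord_{s=1} F = ρ` and `F` has no zeros with `Re s > 1`, if and only if `S_k(Y)/log log Y → ρ` for ONE `k > 0`, if
  and only if `S_k(Y) = ρ log log Y + O(1)` for ALL `k > 0`.
* `ord_{s=1} F ≤ ρ` and `F` has no zeros with `Re s > 1`, if and only if `S_k(Y) ≤ (ρ + o(1)) log log Y` for ONE
  `k > 0`, if and only if `S_k(Y) ≤ ρ log log Y + O(1)` for ALL `k > 0`.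

So with `ρ = rank A(K)` the rank form of the conjecture of Birch and Swinnerton-Dyer for `A/K`, together with the
Riemann hypothesis for `A/K`, is equivalent to the expected growth of the smoothed product of the local densities,
and a one-sided bound is already equivalent to the Riemann hypothesis together with
`ord_{s=1} L(s, A) ≤ rank A(K)`. (The Euler factors at the primes of `S` have neither zeros nor poles for
`Re s ≥ 1`.)

For elliptic curves this is `RieszProduct` of problem `MP_ae0bd0_nt`. The proof is in `Pool.Agent.Q5.MS` and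
`Pool.Agent.Q5.VA`, based on `Pool.Agent.TH270.RS` (weighted sums over prime powers of a system of primes,
helper270) and `Pool.Agent.TH942.ES` (helper942).
-/

set_option autoImplicit false

namespace Pool.Agent.Results.MP_1d384c_nt.RieszProductAbelian

open Filter Topology Set Complex NumberField IsDedekindDomain

variable {K : Type} [Field K] [NumberField K] {n : ℕ}

/-- The norm `q_v`. -/
noncomputable def norm (v : HeightOneSpectrum (𝓞 K)) : ℕ := Ideal.absNorm v.asIdeal

/-- The set `X` of homogeneous polynomials over a ring `R` in `n` variables defines a projective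
scheme over `R`.  For a field `κ` with `q` elements and a homomorphism `R → κ` this is `(q - 1)`
times the number of the points of `X` with coordinates in `κ`: the number of the nonzero solutions
of the equations. -/
noncomputable def cone {R : Type} [CommRing R] (X : Set (MvPolynomial (Fin n) R)) {κ : Type}
    [Field κ] (φ : R →+* κ) : ℕ :=
  Nat.card {u : Fin n → κ // u ≠ 0 ∧ ∀ f ∈ X, MvPolynomial.eval₂ φ u f = 0}

/-- For every prime `v` outside of `S` the numbers `α v j` are the Frobenius eigenvalues at `v` of the abelian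
variety `X` of dimension `g`: they have the absolute value `√q_v`, and for every finite extension `κ` of the residue
field of `v`, of degree `e`, the number of the points of `X` with coordinates in `κ` is `∏_j (1 - α_j^e)`. -/
def IsWeil (X : Set (MvPolynomial (Fin n) (𝓞 K))) (g : ℕ) (S : Finset (HeightOneSpectrum (𝓞 K)))
    (α : HeightOneSpectrum (𝓞 K) → Fin (2 * g) → ℂ) : Prop :=
  ∀ v : HeightOneSpectrum (𝓞 K), v ∉ S → (∀ j, ‖α v j‖ = √(norm v : ℝ)) ∧
    ∀ (κ : Type) [Field κ] [Finite κ] (φ : 𝓞 K →+* κ) (e : ℕ), RingHom.ker φ = v.asIdeal →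
      Nat.card κ = norm v ^ e → (cone X φ : ℂ) = ((norm v : ℂ) ^ e - 1) * ∏ j, (1 - α v j ^ e)

/-- The number `#X(k_v)` of the points over the residue field `k_v = 𝓞 K / v`: the number of the nonzero
solutions, divided by `q_v - 1`. -/
noncomputable def points (X : Set (MvPolynomial (Fin n) (𝓞 K))) (v : HeightOneSpectrum (𝓞 K)) : ℝ :=
  (Nat.card {u : Fin n → (𝓞 K ⧸ v.asIdeal) // u ≠ 0 ∧
    ∀ f ∈ X, MvPolynomial.eval₂ (Ideal.Quotient.mk v.asIdeal) u f = 0} : ℝ) / (norm v - 1)

/-- `F` is a continuation of the incomplete `L`-series `∏_{v ∉ S} ∏_j (1 - α_{v,j} q_v^{-s})⁻¹` (`Re s > 3/2`) to the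
half plane `Re s > 1`, analytic there and at `1`, with `|F(s)| ≤ C (1 + |s|)^κ (1 + 1/(Re s - 1))^κ` for
`Re s > 1`. -/
def Moderate {g : ℕ} (S : Finset (HeightOneSpectrum (𝓞 K)))
    (α : HeightOneSpectrum (𝓞 K) → Fin (2 * g) → ℂ) (F : ℂ → ℂ) : Prop :=
  (∀ s : ℂ, 1 < s.re → DifferentiableAt ℂ F s) ∧ AnalyticAt ℂ F 1 ∧
  (∃ (C : ℝ) (κ : ℕ), ∀ s : ℂ, 1 < s.re →
    ‖F s‖ ≤ C * (1 + ‖s‖) ^ κ * (1 + 1 / (s.re - 1)) ^ κ) ∧
  ∀ s : ℂ, (3 : ℝ) / 2 < s.re →
    HasProd (fun v : {v : HeightOneSpectrum (𝓞 K) // v ∉ S} =>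
      (∏ j, (1 - α v.1 j * (norm v.1 : ℂ) ^ (-s)))⁻¹) (F s)

/-- The primes `v` outside of `S` with `q_v ≤ y`. -/
def upTo (S : Finset (HeightOneSpectrum (𝓞 K))) (y : ℝ) : Set (HeightOneSpectrum (𝓞 K)) :=
  {v | v ∉ S ∧ (norm v : ℝ) ≤ y}

/-- `S_k(Y) = ∑_{v ∉ S, q_v ≤ Y} (1 - log q_v / log Y)^k log (#A(k_v)/q_v^g)`, a finite sum. -/
noncomputable def rieszSum (X : Set (MvPolynomial (Fin n) (𝓞 K))) (g : ℕ)
    (S : Finset (HeightOneSpectrum (𝓞 K))) (k Y : ℝ) : ℝ :=
  ∑ᶠ v ∈ upTo S Y, (1 - Real.log (norm v) / Real.log Y) ^ k *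
    Real.log (points X v / (norm v : ℝ) ^ g)

/-- `F` has no zeros with `Re s > 1`. -/
def NoZeros (F : ℂ → ℂ) : Prop := ∀ s : ℂ, 1 < s.re → F s ≠ 0

/-! ### translation -/

open Pool.Agent.TH942.ES (cv zv xv Sys)
open Pool.Agent.TH942.RZ (rzw)
open Pool.Agent.H921R2.TatePole (nm two_le_nm)
open Pool.Agent.Q5.MS (Sv)
open Pool.Agent.Q5.VA (NS aD Frob)

variable {X : Set (MvPolynomial (Fin n) (𝓞 K))} {g : ℕ}
  {S : Finset (HeightOneSpectrum (𝓞 K))} {α : HeightOneSpectrum (𝓞 K) → Fin (2 * g) → ℂ} {F : ℂ → ℂ}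

theorem weil (h : IsWeil X g S α) {v : HeightOneSpectrum (𝓞 K)} (hv : v ∉ S) :
    Q5.VA.IsWeil X g v (α v) := h v hv

theorem frob (h : IsWeil X g S α) : Frob X g 1 S α := fun _ hv => (weil h hv).frob

theorem one_eq : (((1 : ℕ) : ℝ) + 1) / 2 = 1 := by norm_num

theorem cv_eq (h : IsWeil X g S α) (v : {v : HeightOneSpectrum (𝓞 K) // v ∉ S}) :
    cv (NS S) (aD 1 S α) v = Real.log (points X v.1 / (norm v.1 : ℝ) ^ g) := by
  rw [(frob h).cv_eq v, one_eq, Q5.VA.norm_prod_factor (weil h v.2),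
    ← Q5.VA.cone0_eq (weil h v.2)]
  rfl

theorem riesz_eq (hg : 1 ≤ g) (h : IsWeil X g S α) {k Y : ℝ} (hY : 1 < Y) :
    rieszSum X g S k Y = Sv (NS S) (aD 1 S α) k Y := by
  classical
  have E := (frob h).sys (by omega)
  have hfin : (upTo S Y).Finite := by
    have h1 := (E.fin_le Y).image Subtype.val
    refine h1.subset fun v hv => ?_
    exact ⟨⟨v, hv.1⟩, hv.2, rfl⟩
  have h2 : rieszSum X g S k Y = ∑ v ∈ hfin.toFinset,
      (1 - Real.log (norm v) / Real.log Y) ^ k * Real.log (points X v / (norm v : ℝ) ^ g) :=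
    finsum_mem_eq_finite_toFinset_sum _ hfin
  have h3 : Sv (NS S) (aD 1 S α) k Y = ∑ v ∈ (E.fin_le Y).toFinset,
      rzw k (Real.log (NS S v) / Real.log Y) * cv (NS S) (aD 1 S α) v :=
    finsum_mem_eq_finite_toFinset_sum (fun v => rzw k (Real.log (NS S v) / Real.log Y) *
      cv (NS S) (aD 1 S α) v) (E.fin_le Y)
  rw [h2, h3]
  refine Finset.sum_bij' (i := fun v hv => ⟨v, ((Set.Finite.mem_toFinset _).1 hv).1⟩)
    (j := fun v _ => v.1) ?_ ?_ ?_ ?_ ?_
  · intro v hv
    rw [Set.Finite.mem_toFinset] at hv ⊢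
    exact hv.2
  · intro v hv
    rw [Set.Finite.mem_toFinset] at hv ⊢
    exact ⟨v.2, hv⟩
  · intro v hv
    rfl
  · intro v hv
    rfl
  · intro v hv
    have h4 := cv_eq h ⟨v, ((Set.Finite.mem_toFinset _).1 hv).1⟩
    have h5 : (norm v : ℝ) ≤ Y := ((Set.Finite.mem_toFinset _).1 hv).2
    have h6 : (2 : ℝ) ≤ norm v := by exact_mod_cast two_le_nm v
    have h7 : Real.log (norm v) / Real.log Y ≤ 1 := by
      rw [div_le_one (Real.log_pos hY)]
      exact Real.log_le_log (by linarith) h5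
    have h8 : rzw k (Real.log (norm v) / Real.log Y) =
        (1 - Real.log (norm v) / Real.log Y) ^ k := by
      unfold rzw
      rw [max_eq_left (by linarith)]
    rw [← h8]
    exact congrArg (fun x => rzw k (Real.log (norm v) / Real.log Y) * x) h4.symm

theorem moderate (hF : Moderate S α F) : Q5.VA.ModerateAt (1 : ℝ) (NS S) (aD 1 S α) F := by
  obtain ⟨h1, h2, h3, h4⟩ := hF
  unfold Q5.VA.ModerateAt
  rw [Complex.ofReal_one]
  refine ⟨h1, h2, h3, fun s hs => (h4 s (by linarith)).congr_fun fun v => ?_⟩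
  have h5 := Q5.VA.factorD (i := 1) (S := S) (α := α) v s
  rw [one_eq, Complex.ofReal_one] at h5
  exact h5

/-- **The smoothed product of Birch and Swinnerton-Dyer for abelian varieties over number fields.** -/
theorem result (K : Type) [Field K] [NumberField K] (n g : ℕ) (hg : 1 ≤ g)
    (X : Set (MvPolynomial (Fin n) (𝓞 K))) (S : Finset (HeightOneSpectrum (𝓞 K)))
    (α : HeightOneSpectrum (𝓞 K) → Fin (2 * g) → ℂ) (hX : IsWeil X g S α)
    (F : ℂ → ℂ) (hF : Moderate S α F) :
    (∀ ρ : ℝ, List.TFAE [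
      NoZeros F ∧ ∃ m : ℕ, ρ = m ∧ analyticOrderAt F 1 = m,
      ∀ k : ℝ, 0 < k → ∃ M : ℝ, ∀ᶠ Y : ℝ in atTop,
        |rieszSum X g S k Y - ρ * Real.log (Real.log Y)| ≤ M,
      ∃ k : ℝ, 0 < k ∧
        Tendsto (fun Y : ℝ => rieszSum X g S k Y / Real.log (Real.log Y)) atTop (𝓝 ρ)]) ∧
    (∀ ρ : ℝ, List.TFAE [
      NoZeros F ∧ ∃ m : ℕ, (m : ℝ) ≤ ρ ∧ analyticOrderAt F 1 = m,
      ∀ k : ℝ, 0 < k → ∃ M : ℝ, ∀ᶠ Y : ℝ in atTop,
        rieszSum X g S k Y ≤ ρ * Real.log (Real.log Y) + M,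
      ∃ k : ℝ, 0 < k ∧ ∀ ε : ℝ, 0 < ε → ∀ᶠ Y : ℝ in atTop,
        rieszSum X g S k Y ≤ (ρ + ε) * Real.log (Real.log Y)]) := by
  have E := (frob hX).sys (by omega)
  have t := Q5.VA.riesz_all E ((frob hX).real (by omega)) (moderate hF)
    (T := fun k Y => rieszSum X g S k Y) fun k Y hY => riesz_eq hg hX hY
  rw [Complex.ofReal_one] at t
  exact t

end Pool.Agent.Results.MP_1d384c_nt.RieszProductAbelian
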