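import Pool.Agent.Q18.W.Wrap
import Pool.Agent.Results.MP_1d384c_nt.RieszProductAbelian

/-!
# The product of Birch and Swinnerton-Dyer for abelian varieties in one sequence of windows

Let `A` be an abelian variety of dimension `g ≥ 1` over a number field `K`, given by homogeneous polynomials `X` over
`𝓞 K`, `S` a finite set of primes such that for `v ∉ S` the Frobenius eigenvalues `α_{v,j}` are given by the
numbers of points of `A` over the finite extensions of the residue field, and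

`P(x) = ∏_{v ∉ S, q_v ≤ x} #A(k_v) / q_v^g`,

the original product of Birch and Swinnerton-Dyer with the sharp cut-off. Let `F` be a continuation of
`∏_{v ∉ S} ∏_j (1 - α_{v,j} q_v^{-s})⁻¹` which is MEROMORPHIC at every point with `Re s > 1` and at `s = 1`; nothing
else is assumed on `F` (no growth condition, no functional equation, no continuation beyond the line `Re s = 1`).
Let `0 < δ < 1`. All hypotheses on the product are made only for `x` in the windows `[Y^(1-δ), Y]` of ONE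
unbounded set of values of `Y`.

* If `F` has no real poles `> 1` and `P(x) ≤ C (log x)^κ` there, then `F` has no zeros and no poles with `Re s > 1`, and
  `ord_{s=1} F ≤ κ`. With `κ = rank A(K)`: one half of the conjecture of Birch and Swinnerton-Dyer and the Riemann
  hypothesis for `A` follow from the expected upper bound in one sequence of windows.
* If `P(x) ≤ C (log x)^κ` in one sequence of windows and `P(x) ≥ C' (log x)^κ'` in one sequence of windows `C' > 0`, then
  `F` has no zeros and no poles with `Re s > 1`, and `κ' ≤ ord_{s=1} F ≤ κ`; real poles need not be excluded.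
* If `F` has no real poles `> 1 + c`, `c ≥ 0`, and has a zero or a pole with `Re s > 1 + c`, then EVERY window
  `[Y^(1-δ), Y]` with `Y` large contains an `x` with `P(x) > exp (C x^c)`.
* If `F` has no real poles `> 1`, then for every `C` and every `κ < ord_{s=1} F` EVERY window with `Y` large
  contains an `x` with `P(x) > C (log x)^κ`.

The proof (`Pool.Agent.Q18.W`): the means of the summatory function with the weights `u^k e^{-σu}`, `σ` fixed and
`k → ∞`, are given by the Taylor coefficients of `log F` at `1 + σ`, hence by the singularities nearest to `1 + σ`.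
-/

set_option autoImplicit false

namespace Pool.Agent.Results.MP_1d384c_nt.OneSequenceOfWindows

open Filter Topology Set Complex NumberField IsDedekindDomain
open Pool.Agent.Results.MP_1d384c_nt.RieszProductAbelian (norm cone IsWeil points upTo)

variable {K : Type} [Field K] [NumberField K] {n : ℕ}

/-- `F` is a continuation of the incomplete `L`-series `∏_{v ∉ S} ∏_j (1 - α_{v,j} q_v^{-s})⁻¹` (`Re s > 3/2`),
meromorphic at every point with `Re s > 1` and at `1`. -/
def Continues {g : ℕ} (S : Finset (HeightOneSpectrum (𝓞 K)))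
    (α : HeightOneSpectrum (𝓞 K) → Fin (2 * g) → ℂ) (F : ℂ → ℂ) : Prop :=
  (∀ s : ℂ, 1 < s.re → MeromorphicAt F s) ∧ MeromorphicAt F 1 ∧
  ∀ s : ℂ, (3 : ℝ) / 2 < s.re →
    HasProd (fun v : {v : HeightOneSpectrum (𝓞 K) // v ∉ S} =>
      (∏ j, (1 - α v.1 j * (norm v.1 : ℂ) ^ (-s)))⁻¹) (F s)

/-- `P(x) = ∏_{v ∉ S, q_v ≤ x} #A(k_v)/q_v^g`, a finite product. -/
noncomputable def product (X : Set (MvPolynomial (Fin n) (𝓞 K))) (g : ℕ)
    (S : Finset (HeightOneSpectrum (𝓞 K))) (x : ℝ) : ℝ :=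
  ∏ᶠ v ∈ upTo S x, points X v / (norm v : ℝ) ^ g

/-- `F` has no zeros and no poles with `Re s > 1`. -/
def Free (F : ℂ → ℂ) : Prop := ∀ s : ℂ, 1 < s.re → meromorphicOrderAt F s = 0

/-- `F` has no real poles `x > 1 + c`. -/
def NoRealPoles (F : ℂ → ℂ) (c : ℝ) : Prop := ∀ x : ℝ, 1 + c < x → 0 ≤ meromorphicOrderAt F (x : ℂ)

/-- `p x` holds for all `x` in the window `[Y^(1-δ), Y]`, for arbitrarily large `Y`. -/
def Windows (δ : ℝ) (p : ℝ → Prop) : Prop :=
  ∃ᶠ Y : ℝ in atTop, ∀ x : ℝ, Y ^ (1 - δ) ≤ x → x ≤ Y → p x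

/-- Every window `[Y^(1-δ), Y]` with `Y` large contains an `x` with `p x`. -/
def EveryWindow (δ : ℝ) (p : ℝ → Prop) : Prop :=
  ∀ᶠ Y : ℝ in atTop, ∃ x : ℝ, Y ^ (1 - δ) ≤ x ∧ x ≤ Y ∧ p x

/-! ### translation -/

open Pool.Agent.Results.MP_1d384c_nt.RieszProductAbelian (weil frob one_eq cv_eq)
open Pool.Agent.TH942.ES (cv zv xv Sys)
open Pool.Agent.Q5.MS (Pv)
open Pool.Agent.Q5.VA (NS aD Frob)
open Pool.Agent.Q18.W (Win Dw)

variable {X : Set (MvPolynomial (Fin n) (𝓞 K))} {g : ℕ}
  {S : Finset (HeightOneSpectrum (𝓞 K))} {α : HeightOneSpectrum (𝓞 K) → Fin (2 * g) → ℂ} {F : ℂ → ℂ}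

theorem factor_pos (h : IsWeil X g S α) (v : {v : HeightOneSpectrum (𝓞 K) // v ∉ S}) :
    0 < points X v.1 / (norm v.1 : ℝ) ^ g := by
  have h1 := Q5.VA.norm_prod_factor (weil h v.2)
  have h2 : ‖∏ j, (1 - α v.1 j * (norm v.1 : ℂ) ^ (-(1 : ℂ)))‖ ≠ 0 := by
    rw [norm_ne_zero_iff, Finset.prod_ne_zero_iff]
    intro j _ h0
    have h3 := (frob h).lt_one v j
    have e : ((((Pool.Agent.H921R2.TatePole.nm v.1 : ℝ) ^ (-((((1 : ℕ) : ℝ) + 1) / 2)) : ℝ) : ℝ) : ℂ) =
        (norm v.1 : ℂ) ^ (-(1 : ℂ)) := by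
      have hp2 : (2 : ℝ) ≤ Pool.Agent.H921R2.TatePole.nm v.1 := by
        exact_mod_cast Pool.Agent.H921R2.TatePole.two_le_nm v.1
      have h1 : (norm v.1 : ℂ) = (Pool.Agent.H921R2.TatePole.nm v.1 : ℂ) := rfl
      rw [one_eq, h1, Complex.ofReal_cpow (by linarith)]
      push_cast
      rfl
    rw [e, ← sub_eq_zero.1 h0, norm_one] at h3
    exact lt_irrefl _ h3
  have h4 : 0 ≤ points X v.1 / (norm v.1 : ℝ) ^ g := by
    have h5 : (1 : ℝ) ≤ norm v.1 := by
      have : (2 : ℝ) ≤ Pool.Agent.H921R2.TatePole.nm v.1 := by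
        exact_mod_cast Pool.Agent.H921R2.TatePole.two_le_nm v.1
      have h6 : (norm v.1 : ℝ) = (Pool.Agent.H921R2.TatePole.nm v.1 : ℝ) := rfl
      linarith
    have h7 : (0 : ℝ) ≤ norm v.1 - 1 := by linarith
    have h8 : 0 ≤ points X v.1 := by
      unfold Pool.Agent.Results.MP_1d384c_nt.RieszProductAbelian.points
      exact div_nonneg (Nat.cast_nonneg _) h7
    positivity
  rcases h4.lt_or_eq with h5 | h5
  · exact h5
  · exfalso
    apply h2
    have e : ∀ j, α v.1 j * (norm v.1 : ℂ) ^ (-(1 : ℂ)) =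
        α v.1 j * ((((Pool.Agent.H921R2.TatePole.nm v.1 : ℝ) ^ (-(1 : ℝ)) : ℝ) : ℝ) : ℂ) := by
      intro j
      have hp2 : (2 : ℝ) ≤ Pool.Agent.H921R2.TatePole.nm v.1 := by
        exact_mod_cast Pool.Agent.H921R2.TatePole.two_le_nm v.1
      have h1 : (norm v.1 : ℂ) = (Pool.Agent.H921R2.TatePole.nm v.1 : ℂ) := rfl
      rw [h1, Complex.ofReal_cpow (by linarith)]
      push_cast
      rfl
    simp only [e]
    rw [h1, ← Q5.VA.cone0_eq (weil h v.2)]
    exact h5.symm

theorem product_pos (h : IsWeil X g S α) (y : ℝ) : 0 < product X g S y := by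
  unfold product
  exact finprod_mem_induction (fun x : ℝ => 0 < x) one_pos (fun x y hx hy => mul_pos hx hy)
    fun v hv => factor_pos h ⟨v, hv.1⟩

theorem log_product (hg : 1 ≤ g) (h : IsWeil X g S α) (y : ℝ) :
    Real.log (product X g S y) = Pv (NS S) (aD 1 S α) y := by
  classical
  have E := (frob h).sys (by omega : 1 ≤ 2 * g)
  have hfin : (upTo S y).Finite := by
    have h1 := (E.fin_le y).image Subtype.val
    refine h1.subset fun v hv => ?_
    exact ⟨⟨v, hv.1⟩, hv.2, rfl⟩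
  have h2 : product X g S y = ∏ v ∈ hfin.toFinset, points X v / (norm v : ℝ) ^ g :=
    finprod_mem_eq_finite_toFinset_prod _ hfin
  rw [h2, Real.log_prod]
  · rw [Pool.Agent.Q5.MS.pv_eq E]
    refine Finset.sum_bij' (i := fun v hv => ⟨v, ((Set.Finite.mem_toFinset _).1 hv).1⟩)
      (j := fun v _ => v.1) ?_ ?_ ?_ ?_ ?_
    · intro v hv
      rw [Set.Finite.mem_toFinset] at hv ⊢
      exact hv.2
    · intro v hv
      rw [Set.Finite.mem_toFinset] at hv ⊢
      exact ⟨v.2, hv⟩
    · intro v hv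
      rfl
    · intro v hv
      rfl
    · intro v hv
      exact (cv_eq h ⟨v, ((Set.Finite.mem_toFinset _).1 hv).1⟩).symm
  · intro v hv
    rw [Set.Finite.mem_toFinset] at hv
    exact (factor_pos h ⟨v, hv.1⟩).ne'

theorem data (hg : 1 ≤ g) (hX : IsWeil X g S α) (hF : Continues S α F) :
    Dw (NS S) (aD 1 S α) (fun s => F (((1 : ℝ) : ℂ) + s)) := by
  obtain ⟨h1, h2, h3⟩ := hF
  refine Pool.Agent.Q18.W.dw_of ((frob hX).sys (by omega : 1 ≤ 2 * g)) ((frob hX).real (by omega : 1 ≤ 2 * g)) h1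
    (by rw [Complex.ofReal_one]; exact h2) fun s hs => ?_
  refine (h3 s (by linarith)).congr_fun fun v => ?_
  have h4 := Q5.VA.factorD (i := 1) (S := S) (α := α) v s
  rw [one_eq, Complex.ofReal_one] at h4
  rw [Complex.ofReal_one]
  exact h4

/-- **The product of Birch and Swinnerton-Dyer for abelian varieties in one sequence of windows.** -/
theorem result (K : Type) [Field K] [NumberField K] (n g : ℕ) (hg : 1 ≤ g)
    (X : Set (MvPolynomial (Fin n) (𝓞 K))) (S : Finset (HeightOneSpectrum (𝓞 K)))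
    (α : HeightOneSpectrum (𝓞 K) → Fin (2 * g) → ℂ) (hX : IsWeil X g S α)
    (F : ℂ → ℂ) (hF : Continues S α F) (δ : ℝ) (h0 : 0 < δ) (h1 : δ < 1) :
    (NoRealPoles F 0 → ∀ κ C : ℝ, (Windows δ fun x => product X g S x ≤ C * Real.log x ^ κ) →
      Free F ∧ ∃ e : ℤ, meromorphicOrderAt F 1 = e ∧ (e : ℝ) ≤ κ) ∧
    (∀ (δ' κ C κ' C' : ℝ), 0 < δ' → δ' < 1 → 0 < C' →
      (Windows δ fun x => product X g S x ≤ C * Real.log x ^ κ) →
      (Windows δ' fun x => C' * Real.log x ^ κ' ≤ product X g S x) →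
      Free F ∧ ∃ e : ℤ, meromorphicOrderAt F 1 = e ∧ κ' ≤ e ∧ (e : ℝ) ≤ κ) ∧
    (∀ c C : ℝ, 0 ≤ c → NoRealPoles F c → (∃ s : ℂ, 1 + c < s.re ∧ meromorphicOrderAt F s ≠ 0) →
      EveryWindow δ fun x => Real.exp (C * x ^ c) < product X g S x) ∧
    (NoRealPoles F 0 → ∀ e : ℤ, meromorphicOrderAt F 1 = e → ∀ κ C : ℝ, κ < e →
      EveryWindow δ fun x => C * Real.log x ^ κ < product X g S x) := by
  have H := data hg hX hF
  have hP := product_pos hX
  have hlP := log_product hg hX
  have one : NoRealPoles F 0 → ∀ κ C : ℝ, (Windows δ fun x => product X g S x ≤ C * Real.log x ^ κ) →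
      Free F ∧ ∃ e : ℤ, meromorphicOrderAt F 1 = e ∧ (e : ℝ) ≤ κ := by
    intro hr κ C h
    obtain ⟨f1, e, f2, f3⟩ := Pool.Agent.Q18.W.prime_one H hP hlP h0 h1 (κ := κ) (C := C)
      (fun x hx => hr x (by linarith)) h
    rw [Complex.ofReal_one] at f2
    exact ⟨f1, e, f2, f3⟩
  refine ⟨one, fun δ' κ C κ' C' h0' h1' hC' h h' => ?_, fun c C hc hr hs => ?_, fun hr e he κ C hκ => ?_⟩
  · obtain ⟨f1, e, f2, f3, f4⟩ := Pool.Agent.Q18.W.prime_two H hP hlP h0 h1 h0' h1' hC' h h'
    rw [Complex.ofReal_one] at f2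
    exact ⟨f1, e, f2, f3, f4⟩
  · obtain ⟨s, hs1, hs2⟩ := hs
    unfold EveryWindow
    by_contra hcon
    rw [Filter.not_eventually] at hcon
    refine hs2 (Pool.Agent.Q18.W.prime_half H hP hlP h0 h1 (C := C) hc hr ?_ s hs1)
    refine hcon.mono fun Y hY x p q => ?_
    push Not at hY
    exact hY x p q
  · unfold EveryWindow
    by_contra hcon
    rw [Filter.not_eventually] at hcon
    obtain ⟨-, e', f2, f3⟩ := one hr κ C (hcon.mono fun Y hY x p q => by
      push Not at hY
      exact hY x p q)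
    have : e' = e := by
      rw [he] at f2
      exact_mod_cast f2.symm
    rw [this] at f3
    linarith

end Pool.Agent.Results.MP_1d384c_nt.OneSequenceOfWindows
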